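import Pool.Agent.Q211.AM.Vm5

/-!
# A set with fewer partitions with finitely many blocks than finitary partitions

The model is a symmetric extension of permutation type. The atoms are of three kinds: the atoms
`xa x` and `va x` for `x` in a countable vector space `V` over the field with two elements, and the
atoms `ca n` for natural numbers `n` (every atom is represented by an infinite set of mutually
generic Cohen reals). The group is `Sym(V) × GL(V)`; it acts on the atoms `xa x` by permutations,
on the atoms `va x` by linear bijections, and it fixes the atoms `ca n`; supports are finite.
Let `A` be the set of the atoms, and `X` and `V` the sets of the atoms of the first two kinds.

A subset of `A` in the model contains finitely many or almost all elements of `X`, and the same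
holds for `V`. So a partition `Q` with finitely many blocks has a block that contains almost all
elements of `X` and one that contains almost all elements of `V`. There are finitely many
other elements of `X` and `V`; their blocks are labelled by the least index (an element of the
countable part, or one of the two special blocks) if there is one. The finitary partition that
codes `Q` consists of the sets of elements with the same label, together with a point of the
countable part that codes the label, of the unlabelled blocks with at least two
elements, of the set of the unlabelled singletons together with another point of the countable
part, and of pairs of points of the countable part which code the restriction of `Q` to the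
indices.

Suppose that there is an injection from the finitary partitions into the partitions with finitely
many blocks, with support `W₀` (a finite subspace). Let `W₀ < W' < W` be finite subspaces, and let
`P` be the partition with the blocks `{xa x, va x}` for `x` in `W`, the cosets of `W'` outside `W`
and singletons. Let `Q` be its image. By symmetry, `Q` matches the elements of `X` and of `V` over
`W` minus `W₀`, and all atoms `va x` for `x` outside `W` are in one block of `Q`. So `Q` is
preserved by an element of the group that moves `W'`, but `P` is not, a contradiction.
-/

set_option autoImplicit false

namespace Pool.Agent.Results.MP_fe2f0d_lc.PartFinLtFinPart

open Pool.Agent.W868 Pool.Agent.W868.PName Pool.Agent.Q211.SY Pool.Agent.Q211.FS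
open Pool.Agent.Q211.TP Pool.Agent.Q211.AM

/-- There is a countable transitive model of ZF with an infinite set `A` such that, in the model,
the set of the partitions of `A` with finitely many blocks has a strictly smaller cardinality than
the set of the finitary partitions of `A`. -/
theorem result : ∃ M : Set ZFSet.{0}, M.Countable ∧ IsZF M ∧
    ∃ A ∈ M, ¬ FinIn M A ∧ PartFin M A ∈ M ∧ FinPart M A ∈ M ∧
      CardLt M (PartFin M A) (FinPart M A) := by
  obtain ⟨M, at', st, fam, h⟩ := exists_vx
  have hA := h.stM _ univ_DX
  exact ⟨M, h.cnt, h.zf, st Set.univ, hA, VxM.inf h, PartFin_mem h.zf hA, FinPart_mem h.zf hA,
    VxM.lt h⟩

end Pool.Agent.Results.MP_fe2f0d_lc.PartFinLtFinPart
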